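import Pool.Agent.Q171.Mag.Cut
import Pool.Agent.Q171.Mag.Disc3
import Pool.Agent.Q171.Mag.ExistsA

/-!
# The reverse Faber-Krahn inequality for a localized magnetic field fails

`result`: for every constant `C` there are a flux `Φ` and bounded simply connected plane domains
`ω`, `Ω` with `C¹` boundaries and `closure ω ⊆ Ω` such that `λ(Φ, Ω, ω) > C λ(Φ, Ω*, ω*)`.
The definitions are in `Pool/Agent/Q171/Mag/Defs.lean`.
-/

set_option autoImplicit false

open MeasureTheory Set Filter Topology Complex Metric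
open scoped ENNReal ComplexConjugate

namespace Pool.Agent.Results.MP_d36e13_an.ReverseFaberKrahnFails

open Pool.Agent.Q171.Mag

theorem vol_rect {a c : ℝ} :
    volume {z : ℂ | |z.re| < a ∧ |z.im| < c} = ENNReal.ofReal (2 * a) * ENNReal.ofReal (2 * c) := by
  have h1 := Complex.volume_preserving_equiv_real_prod
  have h2 : {z : ℂ | |z.re| < a ∧ |z.im| < c} =
      Complex.measurableEquivRealProd ⁻¹' (Ioo (-a) a ×ˢ Ioo (-c) c) := by
    ext z
    simp [Complex.measurableEquivRealProd_apply, abs_lt]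
  rw [h2, h1.measure_preimage_equiv, Measure.volume_eq_prod, Measure.prod_prod, Real.volume_Ioo,
    Real.volume_Ioo]
  congr 2 <;> ring

theorem lam_nonneg (A : ℂ → ℂ) (Ω : Set ℂ) : 0 ≤ lam A Ω := by
  refine Real.sInf_nonneg ?_
  rintro _ ⟨v, _, _, _, hv, rfl⟩
  exact div_nonneg (integral_nonneg fun z => dens_nonneg _ _ _) hv.le

theorem dom_real_volume {L : ℝ} (hL : 2 ≤ L) :
    8 * L ≤ volume.real (dom L 4) ∧ volume.real (dom L 4) ≤ 8 * (L + 2) ∧
      volume.real (dom L 1) ≤ 4 * (L + 1) ∧ 0 < volume.real (dom L 1) ∧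
      volume (dom L 4) ≠ ∞ ∧ volume (dom L 1) ≠ ∞ := by
  have f4 : volume (dom L 4) ≠ ∞ := (dom_isC1 (by linarith) (by norm_num) le_rfl).bounded.measure_lt_top.ne
  have f1 : volume (dom L 1) ≠ ∞ :=
    (dom_isC1 (by linarith) (by norm_num) (by norm_num)).bounded.measure_lt_top.ne
  have hr : ∀ a c : ℝ, 0 ≤ a → 0 ≤ c →
      volume.real {z : ℂ | |z.re| < a ∧ |z.im| < c} = 4 * a * c := by
    intro a c ha hc
    rw [Measure.real, vol_rect, ENNReal.toReal_mul, ENNReal.toReal_ofReal (by positivity),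
      ENNReal.toReal_ofReal (by positivity)]
    ring
  have ff : ∀ a c : ℝ, volume {z : ℂ | |z.re| < a ∧ |z.im| < c} ≠ ∞ := by
    intro a c
    rw [vol_rect]
    exact ENNReal.mul_ne_top ENNReal.ofReal_ne_top ENNReal.ofReal_ne_top
  refine ⟨?_, ?_, ?_, ?_, f4, f1⟩
  · have h := measureReal_mono (μ := volume) (mid_sub (L := L)) f4
    unfold mid at h
    rw [hr L 2 (by linarith) (by norm_num)] at h
    linarith
  · have h : volume.real (dom L 4) ≤ volume.real {z : ℂ | |z.re| < L + 2 ∧ |z.im| < 2} :=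
      measureReal_mono (fun z hz => ⟨abs_re_lt hz, abs_im_lt hz⟩) (ff _ _)
    rw [hr _ 2 (by linarith) (by norm_num)] at h
    linarith
  · have h : volume.real (dom L 1) ≤ volume.real {z : ℂ | |z.re| < L + 1 ∧ |z.im| < 1} := by
      refine measureReal_mono (fun z hz => ⟨?_, ?_⟩) (ff _ _)
      · exact re_lt zero_le_one (dom_mono (by norm_num) hz)
      · exact abs_lt_of_sq_lt_sq (by linarith [im_sq_lt hz]) (by norm_num)
    rw [hr _ 1 (by linarith) (by norm_num)] at h
    linarith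
  · refine ENNReal.toReal_pos ?_ f1
    refine ((dom_isOpen L 1).measure_pos volume ⟨0, ?_⟩).ne'
    rw [mem_dom, rho_zero (by linarith)]
    norm_num

theorem lower_lam {L b : ℝ} (hL : 2 ≤ L) (hb : 449280 ≤ b) {A : ℂ → ℂ}
    (hA : IsPotential b (dom L 4) (dom L 1) A) : 1 / 905 ≤ lam A (dom L 4) := by
  obtain ⟨v1, v2, v3, v4, f4, f1⟩ := dom_real_volume hL
  unfold lam
  refine le_csInf ?_ ?_
  · obtain ⟨M, hM⟩ := hA.2.1
    refine ⟨_, fun _ => 1, contDiffOn_const, ?_, ?_, ?_, rfl⟩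
    · exact integrableOn_const (by simpa using f4) (by simp)
    · have h1 : dens A (fun _ => 1) = fun z => ‖A z‖ ^ 2 := by
        funext z
        unfold dens
        rw [fderiv_fun_const]
        simp
        rw [nsq]
      rw [h1]
      refine Measure.integrableOn_of_bounded (M := M ^ 2) f4 ?_ ?_
      · exact (hA.1.norm.pow_const 2).aestronglyMeasurable
      · refine (ae_restrict_iff' (dom_isOpen L 4).measurableSet).2
          (Eventually.of_forall fun z hz => ?_)
        rw [Real.norm_of_nonneg (by positivity)]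
        exact pow_le_pow_left₀ (norm_nonneg _) (hM z hz) 2
    · simp
      linarith
  · rintro _ ⟨u, hu, h1, h2, h3, rfl⟩
    rw [le_div_iff₀ h3]
    have := lower (by linarith) hb hA hu h1 h2
    linarith

/-- **The reverse Faber-Krahn inequality fails**, and not even up to a constant factor `C`. -/
theorem result (C : ℝ) : ∃ (Φ : ℝ) (Ω ω : Set ℂ) (R₁ R₀ : ℝ),
    IsC1Domain Ω ∧ IsC1Domain ω ∧ closure ω ⊆ Ω ∧ 0 < R₁ ∧ 0 < R₀ ∧
    volume (ball (0 : ℂ) R₁) = volume Ω ∧ volume (ball (0 : ℂ) R₀) = volume ω ∧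
    (∃ A, IsPotential (2 * Real.pi * Φ / volume.real ω) Ω ω A) ∧
    ∃ A', IsPotential (2 * Real.pi * Φ / volume.real ω) (ball 0 R₁) (ball 0 R₀) A' ∧
      ∀ A, IsPotential (2 * Real.pi * Φ / volume.real ω) Ω ω A →
        C * lam A' (ball 0 R₁) < lam A Ω := by
  set K := max C 1 with hK
  have hK1 : 1 ≤ K := le_max_right _ _
  set L : ℝ := 10 ^ 9 * K with hLdef
  have hL : 2 ≤ L := by nlinarith
  obtain ⟨v1, v2, v3, v4, f4, f1⟩ := dom_real_volume hL
  set V1 := volume.real (dom L 1) with hV1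
  set V4 := volume.real (dom L 4) with hV4
  have hpi := Real.pi_pos
  have hV4p : 0 < V4 := by linarith
  set m : ℕ := ⌈449280 * V1⌉₊ with hm
  have hm1 : 449280 * V1 ≤ m := Nat.le_ceil _
  set R₁ := √(V4 / Real.pi) with hR₁
  set R₀ := √(V1 / Real.pi) with hR₀
  have hR1 : R₁ ^ 2 = V4 / Real.pi := Real.sq_sqrt (by positivity)
  have hR0 : R₀ ^ 2 = V1 / Real.pi := Real.sq_sqrt (by positivity)
  have hR1p : 0 < R₁ := Real.sqrt_pos.2 (by positivity)
  have hR0p : 0 < R₀ := Real.sqrt_pos.2 (by positivity)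
  have hR : R₀ < R₁ := by
    refine Real.sqrt_lt_sqrt (by positivity) ?_
    gcongr
    linarith
  have hvol : ∀ (R V : ℝ) (s : Set ℂ), 0 < R → R ^ 2 = V / Real.pi → volume.real s = V →
      volume s ≠ ∞ → volume (ball (0 : ℂ) R) = volume s := by
    intro R V s hR hRV hs hfin
    have h1 := vol_ball hR.le
    rw [hRV, mul_div_cancel₀ _ hpi.ne', ← hs] at h1
    have h2 : volume (ball (0 : ℂ) R) ≠ ∞ := measure_ball_lt_top.ne
    exact (ENNReal.toReal_eq_toReal_iff' h2 hfin).1 h1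
  refine ⟨2 * m, dom L 4, dom L 1, R₁, R₀, dom_isC1 (by linarith) (by norm_num) le_rfl,
    dom_isC1 (by linarith) (by norm_num) (by norm_num), closure_dom (by norm_num), hR1p, hR0p,
    hvol _ _ _ hR1p hR1 rfl f4, hvol _ _ _ hR0p hR0 rfl f1,
    ⟨_, potC_isPotential _ L 4⟩, pot (2 * m) R₀, ?_, ?_⟩
  · have h1 := pot_isPotential (n := 2 * m) (R := R₁) hR0p
    have h2 : 2 * (2 * (m : ℝ)) / R₀ ^ 2 = 2 * Real.pi * (2 * m) / V1 := by
      rw [hR0]
      field_simp
    rwa [h2] at h1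
  · intro A hA
    have hb : 449280 ≤ 2 * Real.pi * (2 * m) / V1 := by
      rw [le_div_iff₀ v4]
      have h3 : (3 : ℝ) < Real.pi := Real.pi_gt_three
      have h4 : (0 : ℝ) ≤ m := Nat.cast_nonneg m
      nlinarith
    have h1 := lower_lam hL hb hA
    have h2 := upper hR0p hR m
    have h3 : 4608 * R₁ ^ 4 / (R₁ ^ 2 - R₀ ^ 2) ^ 3 ≤ 589824 / L := by
      have hS : 2 * L / Real.pi ≤ R₁ ^ 2 - R₀ ^ 2 := by
        rw [hR1, hR0, ← sub_div]
        gcongr
        linarith
      have hR4 : R₁ ^ 2 ≤ 16 * L / Real.pi := by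
        rw [hR1]
        gcongr
        linarith
      have hLp : 0 < L := by linarith
      calc 4608 * R₁ ^ 4 / (R₁ ^ 2 - R₀ ^ 2) ^ 3
          = 4608 * (R₁ ^ 2) ^ 2 / (R₁ ^ 2 - R₀ ^ 2) ^ 3 := by ring
        _ ≤ 4608 * (16 * L / Real.pi) ^ 2 / (2 * L / Real.pi) ^ 3 := by gcongr
        _ = 147456 * Real.pi / L := by
            field_simp
            norm_num
        _ ≤ 147456 * 4 / L := by
            gcongr
            exact Real.pi_le_four
        _ = _ := by norm_num
    have h4 : C * lam (pot (2 * m) R₀) (ball 0 R₁) ≤ K * (589824 / L) := by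
      have h5 := lam_nonneg (pot (2 * m) R₀) (ball 0 R₁)
      calc C * lam (pot (2 * m) R₀) (ball 0 R₁) ≤ K * lam (pot (2 * m) R₀) (ball 0 R₁) := by
            gcongr
            exact le_max_left _ _
        _ ≤ _ := by
            gcongr
            exact h2.trans h3
    have h5 : K * (589824 / L) = 589824 / 10 ^ 9 := by
      rw [hLdef]
      field_simp
    rw [h5] at h4
    have h6 : (589824 : ℝ) / 10 ^ 9 < 1 / 905 := by norm_num
    linarith

end Pool.Agent.Results.MP_d36e13_an.ReverseFaberKrahnFails
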